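import Pool.Agent.K1H79.TW.Stm
import Pool.Agent.K1H20.GE.LB
import Pool.Agent.K1H33.RM.Task
import Pool.Agent.R362.NearDed

/-!
# The Dedekind zeta function near `s = 2`: a bound by a power of the discriminant

Task TW-A of helper79 (`S_ZB`): Phragmén-Lindelöf in the strip `-3 ≤ Re s ≤ 4`.
-/

set_option autoImplicit false
set_option linter.style.haveILetI false

namespace Pool.Agent.K1H20.TW

open NumberField Complex Filter Topology Set
open scoped Classical
open Pool.Agent.K1H79.TW Pool.Agent.R362.HL Pool.Agent.Y773 Pool.Agent.Y773.G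
open Pool.Agent.K1H20.GE Pool.Agent.R362.Near

/-- the extra factor `s (s - 1)` is compensated by one Gamma factor -/
lemma extra {s : ℂ} (hs : s.re = 4) (k : ℕ) (hk : k ≤ 1) :
    ‖s * (s - 1)‖ * ‖Complex.Gammaℝ (s + k)‖ ≤
      (2 * Real.pi) ^ 2 * max ‖Complex.Gammaℝ (8 : ℂ)‖ ‖Complex.Gammaℝ (9 : ℂ)‖ := by
  set z : ℂ := s + k with hz
  have hzre : z.re = 4 + k := by rw [hz]; simp [hs]
  have hk0 : (0 : ℝ) ≤ k := Nat.cast_nonneg k
  have hz0 : z ≠ 0 := by
    intro h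
    rw [h, zero_re] at hzre
    linarith
  have hz2 : z + 2 ≠ 0 := by
    intro h
    have := congrArg Complex.re h
    rw [add_re, hzre, zero_re] at this
    have h2 : (2 : ℂ).re = 2 := by norm_num
    rw [h2] at this
    linarith
  have e1 := Complex.Gammaℝ_add_two hz0
  have e2 := Complex.Gammaℝ_add_two hz2
  have e3 : z * (z + 2) * Complex.Gammaℝ z = (2 * Real.pi) ^ 2 * Complex.Gammaℝ (z + 2 + 2) := by
    rw [e2, e1]
    have hpi : (Real.pi : ℂ) ≠ 0 := by exact_mod_cast Real.pi_ne_zero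
    field_simp
  have h1 : ‖s‖ ≤ ‖z‖ := by
    rw [Complex.norm_def, Complex.norm_def]
    apply Real.sqrt_le_sqrt
    rw [Complex.normSq_apply, Complex.normSq_apply, hzre, hs, hz]
    simp only [add_im, natCast_im, add_zero]
    nlinarith
  have h2 : ‖s - 1‖ ≤ ‖z + 2‖ := by
    rw [Complex.norm_def, Complex.norm_def]
    apply Real.sqrt_le_sqrt
    have t2 : (2 : ℂ).re = 2 := by norm_num
    have t2' : (2 : ℂ).im = 0 := by norm_num
    rw [Complex.normSq_apply, Complex.normSq_apply, sub_re, sub_im, add_re z, add_im z, hzre, hs, t2, t2', hz]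
    simp only [add_im, natCast_im, add_zero, one_re, one_im, sub_zero]
    nlinarith
  have h3 : ‖Complex.Gammaℝ (z + 2 + 2)‖ ≤ max ‖Complex.Gammaℝ (8 : ℂ)‖ ‖Complex.Gammaℝ (9 : ℂ)‖ := by
    have hre : (z + 2 + 2).re = 8 + k := by
      simp [hzre]
      ring
    refine (gamR_le (by rw [hre]; positivity)).trans ?_
    rw [hre]
    interval_cases k
    · refine le_max_of_le_left (le_of_eq ?_)
      norm_num
    · refine le_max_of_le_right (le_of_eq ?_)
      norm_num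
  calc ‖s * (s - 1)‖ * ‖Complex.Gammaℝ z‖ = ‖s‖ * ‖s - 1‖ * ‖Complex.Gammaℝ z‖ := by rw [norm_mul]
    _ ≤ ‖z‖ * ‖z + 2‖ * ‖Complex.Gammaℝ z‖ := by gcongr
    _ = ‖z * (z + 2) * Complex.Gammaℝ z‖ := by rw [norm_mul, norm_mul]
    _ = (2 * Real.pi) ^ 2 * ‖Complex.Gammaℝ (z + 2 + 2)‖ := by
        rw [e3, norm_mul, norm_pow, norm_mul, Complex.norm_real, Real.norm_eq_abs,
          abs_of_pos Real.pi_pos]
        norm_num
    _ ≤ _ := by gcongr

lemma fib (F : Type) [Field F] [NumberField F] {s : ℂ} (hs : 1 < s.re) (m : ℕ) :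
    ∑' b : ((fun 𝔞 : Ideal (𝓞 F) => Ideal.absNorm 𝔞) ⁻¹' {m} : Set (Ideal (𝓞 F))),
        triv F (b : Ideal (𝓞 F)) * ((Ideal.absNorm (b : Ideal (𝓞 F)) : ℕ) : ℂ) ^ (-s) =
      (Pool.Agent.K1H79.TW.rr F m : ℂ) * (m : ℂ) ^ (-s) := by
  by_cases hm : m = 0
  · subst hm
    have hs0 : -s ≠ 0 := by
      intro h
      rw [neg_eq_zero] at h
      rw [h, zero_re] at hs
      linarith
    rw [Nat.cast_zero, Complex.zero_cpow hs0, mul_zero]
    have : ∀ b : ((fun 𝔞 : Ideal (𝓞 F) => Ideal.absNorm 𝔞) ⁻¹' {0} : Set (Ideal (𝓞 F))),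
        triv F (b : Ideal (𝓞 F)) * ((Ideal.absNorm (b : Ideal (𝓞 F)) : ℕ) : ℂ) ^ (-s) = 0 := by
      intro b
      have hb : Ideal.absNorm (b : Ideal (𝓞 F)) = 0 := b.2
      rw [hb, Nat.cast_zero, Complex.zero_cpow hs0, mul_zero]
    rw [tsum_congr this, tsum_zero]
  · have : ∀ b : ((fun 𝔞 : Ideal (𝓞 F) => Ideal.absNorm 𝔞) ⁻¹' {m} : Set (Ideal (𝓞 F))),
        triv F (b : Ideal (𝓞 F)) * ((Ideal.absNorm (b : Ideal (𝓞 F)) : ℕ) : ℂ) ^ (-s)
          = (m : ℂ) ^ (-s) := by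
      intro b
      have hb : Ideal.absNorm (b : Ideal (𝓞 F)) = m := b.2
      have hb0 : (b : Ideal (𝓞 F)) ≠ ⊥ := by
        intro h
        rw [h, Ideal.absNorm_bot] at hb
        exact hm hb.symm
      rw [hb, triv_apply hb0, one_mul]
    rw [tsum_congr this]
    haveI hfin : Finite {J : Ideal (𝓞 F) // Ideal.absNorm J = m} :=
      (Ideal.finite_setOfPred_absNorm_eq m).to_subtype
    haveI : Finite ((fun 𝔞 : Ideal (𝓞 F) => Ideal.absNorm 𝔞) ⁻¹' {m} : Set (Ideal (𝓞 F))) := hfin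
    rw [tsum_const, nsmul_eq_mul]
    unfold Pool.Agent.K1H79.TW.rr
    push_cast
    rfl

/-- the zeta function, summed by the norm -/
lemma hasSum_rr (F : Type) [Field F] [NumberField F] {s : ℂ} (hs : 1 < s.re) :
    HasSum (fun m : ℕ => (Pool.Agent.K1H79.TW.rr F m : ℂ) * (m : ℂ) ^ (-s)) (LI (triv F) s) := by
  have h1 := (summable_LI (triv_norm (E := F)) hs).hasSum
  have h2 := h1.tsum_fiberwise (fun 𝔞 : Ideal (𝓞 F) => Ideal.absNorm 𝔞)
  have h3 : LI (triv F) s = ∑' 𝔞 : Ideal (𝓞 F), triv F 𝔞 * ((Ideal.absNorm 𝔞 : ℕ) : ℂ) ^ (-s) := rfl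
  rw [h3]
  have h4 : (fun m : ℕ => (Pool.Agent.K1H79.TW.rr F m : ℂ) * (m : ℂ) ^ (-s)) = fun m : ℕ =>
      ∑' b : ((fun 𝔞 : Ideal (𝓞 F) => Ideal.absNorm 𝔞) ⁻¹' {m} : Set (Ideal (𝓞 F))),
        triv F (b : Ideal (𝓞 F)) * ((Ideal.absNorm (b : Ideal (𝓞 F)) : ℕ) : ℂ) ^ (-s) := by
    funext m
    symm
    exact fib F hs m
  rw [h4]
  exact h2

lemma LI_triv (F : Type) [Field F] [NumberField F] {s : ℂ} (hs : 1 < s.re) :
    LI (triv F) s = dedekindZeta F s := by
  rw [← (hasSum_rr F hs).tsum_eq]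
  unfold dedekindZeta LSeries
  refine tsum_congr fun m => ?_
  by_cases hm : m = 0
  · subst hm
    have hs0 : -s ≠ 0 := by
      intro h
      rw [neg_eq_zero] at h
      rw [h, zero_re] at hs
      linarith
    rw [LSeries.term_zero, Nat.cast_zero, Complex.zero_cpow hs0, mul_zero]
  · rw [LSeries.term_of_ne_zero hm, Complex.cpow_neg, div_eq_mul_inv]
    unfold Pool.Agent.K1H79.TW.rr
    push_cast
    rfl

/-- **`S_ZB`** -/
theorem t_ZB : S_ZB := by
  intro n
  choose C0 hC0 hm using fun f : ℕ => Pool.Agent.K1H33.RM.t_RM f 1 one_pos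
  obtain ⟨M2, hM2, hinv⟩ := inv_gamR_bdd
  set Z : ℝ := ∑' m : ℕ, 1 / (m : ℝ) ^ 3 with hZ
  have hZ0 : 0 ≤ Z := tsum_nonneg fun m => by positivity
  set M1 : ℝ := max 1 (max ‖Complex.Gammaℝ (4 : ℂ)‖ ‖Complex.Gammaℝ (5 : ℂ)‖) with hM1
  have hM1' : 1 ≤ M1 := le_max_left _ _
  set M3 : ℝ := (2 * Real.pi) ^ 2 * max ‖Complex.Gammaℝ (8 : ℂ)‖ ‖Complex.Gammaℝ (9 : ℂ)‖ + 1 with hM3
  have hM30 : 0 < M3 := by
    have : 0 ≤ max ‖Complex.Gammaℝ (8 : ℂ)‖ ‖Complex.Gammaℝ (9 : ℂ)‖ :=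
      le_max_of_le_left (norm_nonneg _)
    positivity
  set CS : ℝ := ∑ f ∈ Finset.range (n + 1), C0 f with hCS
  have hCS0 : 0 < CS := Finset.sum_pos (fun f _ => hC0 f) ⟨0, by simp⟩
  refine ⟨2 * (M3 * M1 ^ n * (CS * (Z + 1)) * M2 ^ n), 2, by positivity, by norm_num, ?_⟩
  intro F _ _ hFn
  set f : ℕ := Module.finrank ℚ F with hf
  have hCle : C0 f ≤ CS := Finset.single_le_sum (f := C0) (fun i _ => (hC0 i).le)
    (Finset.mem_range.mpr (Nat.lt_succ_of_le hFn))
  obtain ⟨X, hX⟩ := exists_xi F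
  set R : ℝ := (((discr F).natAbs : ℕ) : ℝ) with hR
  have hRd : R = |(discr F : ℝ)| := by
    rw [hR, Nat.cast_natAbs]
    push_cast
    rfl
  have hR1 : 1 ≤ R := hX.one_le
  have hR0 : 0 < R := by linarith
  have hRc : (R : ℂ) ≠ 0 := by exact_mod_cast hR0.ne'
  have hcard : Fintype.card (F →+* ℂ) = f := by rw [card_emb]
  have hsig : ∀ w : InfinitePlace F, (fun _ : InfinitePlace F => 0) w ≤ 1 := fun _ => Nat.zero_le _
  -- the bound on the line `Re s = 4`
  set B : ℝ := M3 * M1 ^ f * R ^ 2 * (C0 f * Z) with hB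
  have hline : ∀ s : ℂ, s.re = 4 → ‖X s‖ ≤ B := by
    intro s hs
    have hs1 : 1 < s.re := by rw [hs]; norm_num
    rw [hX.eq s hs1, pow_one, norm_mul, norm_mul (s * (s - 1)), norm_mul ((R : ℂ) ^ (s / 2))]
    have h1 : ‖(R : ℂ) ^ (s / 2)‖ = R ^ 2 := by
      rw [Complex.norm_cpow_eq_rpow_re_of_pos hR0]
      have : (s / 2).re = 2 := by
        simp [hs]
        norm_num
      rw [this]
      exact Real.rpow_ofNat R 2
    have hone : ∀ φ : F →+* ℂ, ‖Complex.Gammaℝ (s + ex (fun _ : InfinitePlace F => 0) φ)‖ ≤ M1 := by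
      intro φ
      have h3 : 0 < (s + ex (fun _ : InfinitePlace F => 0) φ).re := by
        simp only [add_re, natCast_re, hs]
        positivity
      refine (gamR_le h3).trans ?_
      have h4 := G.ex_le hsig φ
      interval_cases hk : ex (fun _ : InfinitePlace F => 0) φ
      · have h5 : (((s + ((0 : ℕ) : ℂ)).re : ℝ) : ℂ) = 4 := by
          simp [hs]
        rw [h5]
        exact le_max_of_le_right (le_max_left _ _)
      · have h5 : (((s + ((1 : ℕ) : ℂ)).re : ℝ) : ℂ) = 5 := by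
          simp [hs]
          norm_num
        rw [h5]
        exact le_max_of_le_right (le_max_right _ _)
    obtain ⟨φ0⟩ : Nonempty (F →+* ℂ) := by
      rw [← Fintype.card_pos_iff, hcard]
      exact Module.finrank_pos
    have h2 : ‖s * (s - 1)‖ *
        ‖∏ φ : F →+* ℂ, Complex.Gammaℝ (s + ex (fun _ : InfinitePlace F => 0) φ)‖ ≤ M3 * M1 ^ f := by
      rw [norm_prod, ← Finset.mul_prod_erase Finset.univ _ (Finset.mem_univ φ0), ← mul_assoc]
      have h5 : ‖s * (s - 1)‖ * ‖Complex.Gammaℝ (s + ex (fun _ : InfinitePlace F => 0) φ0)‖ ≤ M3 := by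
        refine (extra hs _ (G.ex_le hsig φ0)).trans ?_
        rw [hM3]
        linarith
      have h6 : ∏ φ ∈ Finset.univ.erase φ0,
          ‖Complex.Gammaℝ (s + ex (fun _ : InfinitePlace F => 0) φ)‖ ≤ M1 ^ f := by
        calc _ ≤ ∏ φ ∈ Finset.univ.erase φ0, M1 :=
              Finset.prod_le_prod (fun _ _ => norm_nonneg _) fun φ _ => hone φ
          _ = M1 ^ (Finset.univ.erase φ0).card := by rw [Finset.prod_const]
          _ ≤ M1 ^ f := by
              refine pow_le_pow_right₀ hM1' ?_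
              rw [← hcard]
              exact Finset.card_le_card (Finset.erase_subset _ _)
      exact mul_le_mul h5 h6 (Finset.prod_nonneg fun _ _ => norm_nonneg _) hM30.le
    have h3 := LI_four (hC0 f) (hm f F rfl) (triv_norm (E := F)) hs
    rw [h1, hB]
    have h4 : 0 ≤ ‖∏ φ : F →+* ℂ, Complex.Gammaℝ (s + ex (fun _ : InfinitePlace F => 0) φ)‖ :=
      norm_nonneg _
    calc ‖s * (s - 1)‖ * (R ^ 2 *
          ‖∏ φ : F →+* ℂ, Complex.Gammaℝ (s + ex (fun _ : InfinitePlace F => 0) φ)‖) * ‖LI (triv F) s‖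
        = (‖s * (s - 1)‖ *
          ‖∏ φ : F →+* ℂ, Complex.Gammaℝ (s + ex (fun _ : InfinitePlace F => 0) φ)‖) * R ^ 2
            * ‖LI (triv F) s‖ := by ring
      _ ≤ (M3 * M1 ^ f) * R ^ 2 * (C0 f * Z) := by gcongr
      _ = _ := by ring
  obtain ⟨w, hw, hfe⟩ := hX.fe
  have hline' : ∀ s : ℂ, s.re = -3 → ‖X s‖ ≤ B := by
    intro s hs
    rw [hfe s, norm_mul, hw, one_mul, Complex.norm_conj]
    refine hline _ ?_
    simp [hs]
    norm_num
  obtain ⟨C1, -, hC1⟩ := hX.strip (-3) 4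
  have hall := strip_bound hX.diff hC1 hline' hline
  have hcp : Differentiable ℂ fun s : ℂ => (R : ℂ) ^ (-(s / 2)) := by
    intro s
    exact DifferentiableAt.const_cpow (by fun_prop) (Or.inl hRc)
  set Q : ℂ → ℂ := fun s => X s * ((R : ℂ) ^ (-(s / 2)) *
    ∏ φ : F →+* ℂ, (Complex.Gammaℝ (s + ex (fun _ : InfinitePlace F => 0) φ))⁻¹) with hQ
  have hQd : Differentiable ℂ Q :=
    hX.diff.mul (hcp.mul (differentiable_gam (ex (fun _ : InfinitePlace F => 0))))
  have hgd : DifferentiableOn ℂ (fun s => Q s / s) {s | 0 < s.re} := by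
    intro s hs
    have hs0 : s ≠ 0 := by
      intro h
      rw [h] at hs
      simp at hs
    exact ((hQd s).div differentiableAt_id hs0).differentiableWithinAt
  have hval : ∀ s : ℂ, 1 < s.re → Q s / s = (s - 1) * LI (triv F) s := by
    intro s hs
    have hs0 : s ≠ 0 := by
      intro h
      rw [h, zero_re] at hs
      linarith
    have h1 : Q s = s * (s - 1) * LI (triv F) s := by
      rw [hQ]
      simp only
      rw [hX.eq s hs, pow_one, Finset.prod_inv_distrib, Complex.cpow_neg]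
      have h3 := gam_ne_zero (ex (fun _ : InfinitePlace F => 0)) (s := s) (by linarith)
      have h4 : (R : ℂ) ^ (s / 2) ≠ 0 := by
        rw [Ne, Complex.cpow_eq_zero_iff]
        exact fun h => hRc h.1
      field_simp
    rw [h1]
    field_simp
  refine ⟨fun s => Q s / s, hgd, fun s hs => ?_, ?_, fun s hs => ?_⟩
  · have hs1 : s - 1 ≠ 0 := by
      intro h
      have h' : s = 1 := by linear_combination h
      rw [h', one_re] at hs
      linarith
    simp only
    rw [hval s hs, mul_div_cancel_left₀ _ hs1]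
    exact hasSum_rr F hs
  · -- the residue
    have hc : ContinuousAt (fun s => Q s / s) 1 := by
      refine (hgd.differentiableAt ?_).continuousAt
      exact (isOpen_lt continuous_const continuous_re).mem_nhds (by simp)
    have ht : Tendsto (fun s : ℝ => (s : ℂ)) (𝓝[>] 1) (𝓝 (1 : ℂ)) := by
      have h0 := (continuous_ofReal.tendsto (1 : ℝ))
      rw [ofReal_one] at h0
      exact h0.mono_left nhdsWithin_le_nhds
    have h3 := hc.tendsto.comp ht
    have h4 := tendsto_sub_one_mul_dedekindZeta_nhdsGT F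
    have h5 : Tendsto (fun s : ℝ => ((s : ℂ) - 1) * dedekindZeta F s) (𝓝[>] 1) (𝓝 (Q 1 / 1)) := by
      refine h3.congr' ?_
      filter_upwards [self_mem_nhdsWithin] with s hs
      have hs' : 1 < ((s : ℂ)).re := by rw [ofReal_re]; exact hs
      simp only [Function.comp_apply]
      rw [hval _ hs', LI_triv F hs']
    exact (tendsto_nhds_unique h4 h5).symm
  · have h1 := (Complex.abs_re_le_norm (s - 2)).trans hs
    rw [sub_re, abs_le] at h1
    have h2 : (2 : ℂ).re = 2 := by norm_num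
    rw [h2] at h1
    have hre0 : 1 / 2 ≤ s.re := by linarith [h1.1]
    have hre4 : s.re ≤ 4 := by linarith [h1.2]
    have hns : 1 / 2 ≤ ‖s‖ := hre0.trans ((le_abs_self _).trans (Complex.abs_re_le_norm s))
    have h3 : ‖X s‖ ≤ B := hall s (by linarith) hre4
    have h4 : ‖(R : ℂ) ^ (-(s / 2))‖ ≤ 1 := by
      rw [Complex.norm_cpow_eq_rpow_re_of_pos hR0]
      refine Real.rpow_le_one_of_one_le_of_nonpos hR1 ?_
      simp
      linarith
    have h5 : ‖∏ φ : F →+* ℂ, (Complex.Gammaℝ (s + ex (fun _ : InfinitePlace F => 0) φ))⁻¹‖ ≤ M2 ^ f := by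
      rw [norm_prod]
      calc ∏ φ : F →+* ℂ, ‖(Complex.Gammaℝ (s + ex (fun _ : InfinitePlace F => 0) φ))⁻¹‖
          ≤ ∏ φ : F →+* ℂ, M2 :=
            Finset.prod_le_prod (fun _ _ => norm_nonneg _) fun φ _ =>
              hinv s (by linarith) _ (G.ex_le hsig φ)
        _ = M2 ^ f := by
            rw [Finset.prod_const, Finset.card_univ, hcard]
    have hB0 : 0 ≤ B := (norm_nonneg _).trans h3
    have hrp : |(discr F : ℝ)| ^ (2 : ℝ) = R ^ 2 := by
      rw [← hRd]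
      exact Real.rpow_ofNat _ 2
    simp only
    rw [norm_div, hrp, hQ, norm_mul, norm_mul]
    have hM1f : M1 ^ f ≤ M1 ^ n := pow_le_pow_right₀ hM1' hFn
    have hM2f : M2 ^ f ≤ M2 ^ n := pow_le_pow_right₀ hM2 hFn
    have hM20 : 0 ≤ M2 := by linarith
    have hC0f := hC0 f
    have hnum : ‖X s‖ * (‖(R : ℂ) ^ (-(s / 2))‖ *
        ‖∏ φ : F →+* ℂ, (Complex.Gammaℝ (s + ex (fun _ : InfinitePlace F => 0) φ))⁻¹‖) ≤
        M3 * M1 ^ n * (CS * (Z + 1)) * M2 ^ n * R ^ 2 := by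
      calc _ ≤ B * (1 * M2 ^ f) := by gcongr
        _ = M3 * M1 ^ f * (C0 f * Z) * M2 ^ f * R ^ 2 := by rw [hB]; ring
        _ ≤ M3 * M1 ^ n * (CS * (Z + 1)) * M2 ^ n * R ^ 2 := by
            gcongr
            linarith
    rw [div_le_iff₀ (by linarith)]
    refine hnum.trans ?_
    have h6 : 0 ≤ M3 * M1 ^ n * (CS * (Z + 1)) * M2 ^ n * R ^ 2 := by positivity
    nlinarith [mul_le_mul_of_nonneg_left hns h6]

end Pool.Agent.K1H20.TW
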